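import Pool.Agent.H343R2.EH.Psi
import Pool.Agent.H343R2.EH.Primes
import Pool.Agent.H343R2.EH.Exc

/-!
The Elliott-Halberstam sum over all moduli `q ≤ x`, after removing at most `q² (log x)^B / x`
residue classes for each modulus.
-/

namespace Pool.Agent.Results.MP_a78e8f_nt.ExceptionalClasses

open Finset

/-- the number of primes `p ≤ x` -/
noncomputable def primePi (x : ℕ) : ℕ := ((Icc 1 x).filter (fun p : ℕ => p.Prime)).card

/-- the number of primes `p ≤ x` in the class `a` modulo `q` -/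
noncomputable def primePiAP (x q : ℕ) (a : ZMod q) : ℕ :=
  ((Icc 1 x).filter (fun p : ℕ => p.Prime ∧ (p : ZMod q) = a)).card

/-- `|π(x; q, a) - π(x)/φ(q)|` -/
noncomputable def disc (x q : ℕ) (a : (ZMod q)ˣ) : ℝ :=
  |(primePiAP x q (a : ZMod q) : ℝ) - (primePi x : ℝ) / (Nat.totient q : ℝ)|

/-- the maximum of `disc x q a` over the units `a ∉ E` (`0` if there are none) -/
noncomputable def maxOff (x q : ℕ) (E : Finset (ZMod q)ˣ) : ℝ :=
  ⨆ a : {a : (ZMod q)ˣ // a ∉ E}, disc x q a

theorem disc_eq (x q : ℕ) [NeZero q] (a : (ZMod q)ˣ) :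
    disc x q a = |H343E.piAP x q (a : ZMod q).val - H343E.pi1 x / (Nat.totient q : ℝ)| := by
  unfold disc H343E.piAP H343E.pi1 primePi primePiAP
  have h : (Icc 1 x).filter (fun p : ℕ => p.Prime ∧ (p : ZMod q) = (a : ZMod q)) =
      (Icc 1 x).filter (fun p : ℕ => p.Prime ∧ p ≡ (a : ZMod q).val [MOD q]) := by
    apply filter_congr
    intro p _
    rw [← ZMod.natCast_eq_natCast_iff, ZMod.natCast_zmod_val]
  rw [h]

theorem disc_nonneg (x q : ℕ) (a : (ZMod q)ˣ) : 0 ≤ disc x q a := abs_nonneg _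

theorem disc_le (x q : ℕ) (hq : 1 ≤ q) (a : (ZMod q)ˣ) : disc x q a ≤ x := by
  have hφ : (1:ℝ) ≤ Nat.totient q := by exact_mod_cast Nat.totient_pos.mpr (by omega)
  have h1 : (primePiAP x q (a : ZMod q) : ℝ) ≤ x := by
    unfold primePiAP
    exact_mod_cast (card_filter_le _ _).trans (by simp)
  have h2 : (primePi x : ℝ) ≤ x := by
    unfold primePi
    exact_mod_cast (card_filter_le _ _).trans (by simp)
  have h3 : (primePi x : ℝ) / (Nat.totient q : ℝ) ≤ x := by
    rw [div_le_iff₀ (by linarith)]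
    nlinarith [Nat.cast_nonneg (α := ℝ) x]
  have h4 : 0 ≤ (primePi x : ℝ) / (Nat.totient q : ℝ) := by positivity
  have h5 : (0:ℝ) ≤ (primePiAP x q (a : ZMod q) : ℝ) := Nat.cast_nonneg _
  unfold disc
  rw [abs_le]
  constructor <;> linarith

theorem log_ge_one {x : ℕ} (hx : 2 < x) : 1 ≤ Real.log x := by
  rw [Real.le_log_iff_exp_le (by positivity)]
  have := Real.exp_one_lt_d9
  have h : (3:ℝ) ≤ x := by exact_mod_cast hx
  linarith

/-- residue classes as natural numbers -/
theorem fam_of (A : ℝ) (hA : 0 ≤ A) (L : (q : ℕ) → Finset (ZMod q)ˣ)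
    (hL : ∀ q, ((L q).card : ℝ) ≤ A) :
    H343E.Fam A (fun q => if q = 0 then ∅ else (L q).image (fun a : (ZMod q)ˣ => (a : ZMod q).val)) := by
  constructor
  · intro q a ha
    rcases Nat.eq_zero_or_pos q with hq | hq
    · subst hq; simp at ha
    · rw [if_neg (by omega), mem_image] at ha
      obtain ⟨u, _, rfl⟩ := ha
      have : NeZero q := ⟨by omega⟩
      exact ⟨ZMod.val_lt _, ZMod.val_coe_unit_coprime u⟩
  · intro q
    beta_reduce
    split_ifs with h
    · simpa using hA
    · exact le_trans (by exact_mod_cast card_image_le) (hL q)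

/-- **Elliott-Halberstam with exceptional classes.** -/
theorem result : ∀ U : ℕ, ∃ (B : ℕ) (C : ℝ), ∀ x : ℕ, 2 < x →
    (∃ E : (q : ℕ) → Finset (ZMod q)ˣ,
      (∀ q, 1 ≤ q → ((E q).card : ℝ) ≤ (q : ℝ) ^ 2 * Real.log x ^ B / x) ∧
      ∑ q ∈ Icc 1 x, maxOff x q (E q) ≤ C * (x / Real.log x ^ U)) ∧
    (∀ A : ℝ, 1 ≤ A → ∀ D : ℕ, (D : ℝ) ≤ x / Real.log x ^ B →
      (D : ℝ) ^ 2 ≤ A * x / Real.log x ^ B →
      ∀ L : (q : ℕ) → Finset (ZMod q)ˣ, (∀ q, ((L q).card : ℝ) ≤ A) →
      ∑ q ∈ Icc 1 D, ∑ a ∈ L q, disc x q a ≤ C * (A * x / Real.log x ^ U)) := by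
  intro U
  have hpr : ∀ U : ℕ, ∃ (B x0 : ℕ), ∀ x : ℕ, x0 ≤ x → ∀ A : ℝ, 1 ≤ A → ∀ D : ℕ,
      (D : ℝ) ≤ x / Real.log x ^ B → (D : ℝ) ^ 2 ≤ A * x / Real.log x ^ B →
      ∀ L : ℕ → Finset ℕ, H343E.Fam A L →
      ∑ q ∈ Icc 1 D, ∑ a ∈ L q, |H343E.piAP x q a - H343E.pi1 x / (Nat.totient q : ℝ)| ≤
        A * x / Real.log x ^ U := fun U => H343E.primes_of U (H343E.unsmoothed (U + 2))
  obtain ⟨B1, x1, h1⟩ := hpr U
  obtain ⟨B2, x2, h2⟩ := H343E.exceptional_of_primes hpr U
  set B := max B1 B2 with hB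
  set x0 := max (max x1 x2) 3 with hx0
  set C : ℝ := max 1 ((x0 : ℝ) * Real.log x0 ^ U) with hC
  have hC1 : 1 ≤ C := le_max_left _ _
  refine ⟨B, C, fun x hx => ?_⟩
  have hx3 : (3:ℝ) ≤ x := by exact_mod_cast hx
  have hx0' : (0:ℝ) < x := by linarith
  have hlog := log_ge_one hx
  have hlog0 : 0 < Real.log x := by linarith
  have hXU : 0 < (x:ℝ) / Real.log x ^ U := by positivity
  -- the trivial bound for small x
  have htriv : x < x0 → (x:ℝ) * x ≤ C * (x / Real.log x ^ U) := by
    intro hlt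
    have hle : (x:ℝ) ≤ x0 := by exact_mod_cast hlt.le
    have hl : Real.log x ≤ Real.log x0 := Real.log_le_log hx0' hle
    have h5 : (x:ℝ) * Real.log x ^ U ≤ C := by
      calc (x:ℝ) * Real.log x ^ U ≤ x0 * Real.log x0 ^ U := by gcongr
        _ ≤ C := le_max_right _ _
    calc (x:ℝ) * x = (x * Real.log x ^ U) * (x / Real.log x ^ U) := by field_simp
      _ ≤ C * (x / Real.log x ^ U) := mul_le_mul_of_nonneg_right h5 hXU.le
  constructor
  · rcases lt_or_ge x x0 with hlt | hge
    · refine ⟨fun q => ∅, fun q hq => ?_, ?_⟩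
      · simp only [card_empty, Nat.cast_zero]
        positivity
      · calc ∑ q ∈ Icc 1 x, maxOff x q ∅ ≤ ∑ q ∈ Icc 1 x, (x:ℝ) := by
              apply sum_le_sum
              intro q hq
              rw [mem_Icc] at hq
              unfold maxOff
              exact Real.iSup_le (fun a => disc_le x q hq.1 a) hx0'.le
          _ = (x:ℝ) * x := by rw [sum_const, Nat.card_Icc, nsmul_eq_mul]; simp
          _ ≤ _ := htriv hlt
    · have hx2 : x2 ≤ x := ((le_max_right _ _).trans (le_max_left _ _)).trans hge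
      obtain ⟨E, M, hE, hM, hM0, hsum⟩ := h2 x hx2
      classical
      refine ⟨fun q => if h : q = 0 then ∅ else
        haveI : NeZero q := ⟨h⟩; univ.filter (fun a : (ZMod q)ˣ => (a : ZMod q).val ∈ E q), ?_, ?_⟩
      · intro q hq
        beta_reduce
        rw [dif_neg (by omega)]
        have hNe : NeZero q := ⟨by omega⟩
        have hc : ((univ.filter (fun a : (ZMod q)ˣ => (a : ZMod q).val ∈ E q)).card : ℝ) ≤
            ((E q).card : ℝ) := by
          have : (univ.filter (fun a : (ZMod q)ˣ => (a : ZMod q).val ∈ E q)).card ≤ (E q).card := by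
            apply card_le_card_of_injOn (fun a : (ZMod q)ˣ => (a : ZMod q).val)
            · intro a ha
              simpa using ha
            · intro a _ b _ hab
              exact Units.ext (ZMod.val_injective q hab)
          exact_mod_cast this
        refine hc.trans ((hE q hq).trans ?_)
        have hBB : Real.log x ^ B2 ≤ Real.log x ^ B := pow_le_pow_right₀ hlog (le_max_right _ _)
        calc Real.log x ^ B2 * (q:ℝ) ^ 2 / x ≤ Real.log x ^ B * (q:ℝ) ^ 2 / x := by gcongr
          _ = _ := by ring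
      · have hle : ∑ q ∈ Icc 1 x, maxOff x q (if h : q = 0 then ∅ else
            haveI : NeZero q := ⟨h⟩;
              univ.filter (fun a : (ZMod q)ˣ => (a : ZMod q).val ∈ E q)) ≤
            ∑ q ∈ Icc 1 x, M q := by
          apply sum_le_sum
          intro q hq
          rw [mem_Icc] at hq
          have hNe : NeZero q := ⟨by omega⟩
          unfold maxOff
          apply Real.iSup_le _ (hM0 q)
          rintro ⟨a, ha⟩
          rw [dif_neg (by omega)] at ha
          rw [disc_eq]
          apply hM q _ hq.1 (ZMod.val_lt _) (ZMod.val_coe_unit_coprime a)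
          intro h
          exact ha (by simpa using h)
        refine hle.trans (hsum.trans ?_)
        calc (x:ℝ) / Real.log x ^ U = 1 * (x / Real.log x ^ U) := (one_mul _).symm
          _ ≤ C * (x / Real.log x ^ U) := mul_le_mul_of_nonneg_right hC1 hXU.le
  · intro A hA D hD1 hD2 L hL
    have hA0 : 0 ≤ A := by linarith
    have hBB : Real.log x ^ B1 ≤ Real.log x ^ B := pow_le_pow_right₀ hlog (le_max_left _ _)
    rcases lt_or_ge x x0 with hlt | hge
    · have hDx : (D:ℝ) ≤ x := hD1.trans (div_le_self hx0'.le (one_le_pow₀ hlog))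
      calc ∑ q ∈ Icc 1 D, ∑ a ∈ L q, disc x q a ≤ ∑ q ∈ Icc 1 D, A * x := by
            apply sum_le_sum
            intro q hq
            rw [mem_Icc] at hq
            calc ∑ a ∈ L q, disc x q a ≤ ∑ a ∈ L q, (x:ℝ) :=
                  sum_le_sum fun a _ => disc_le x q hq.1 a
              _ = ((L q).card : ℝ) * x := by rw [sum_const, nsmul_eq_mul]
              _ ≤ A * x := mul_le_mul_of_nonneg_right (hL q) hx0'.le
        _ = (D:ℝ) * (A * x) := by rw [sum_const, Nat.card_Icc, nsmul_eq_mul]; simp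
        _ ≤ (x:ℝ) * (A * x) := by gcongr
        _ = A * ((x:ℝ) * x) := by ring
        _ ≤ A * (C * (x / Real.log x ^ U)) := mul_le_mul_of_nonneg_left (htriv hlt) hA0
        _ = _ := by ring
    · have hx1 : x1 ≤ x := ((le_max_left _ _).trans (le_max_left _ _)).trans hge
      have hD1' : (D:ℝ) ≤ x / Real.log x ^ B1 := hD1.trans (by gcongr)
      have hD2' : (D:ℝ) ^ 2 ≤ A * x / Real.log x ^ B1 := hD2.trans (by gcongr)
      have h := h1 x hx1 A hA D hD1' hD2' _ (fam_of A hA0 L hL)
      have e : ∑ q ∈ Icc 1 D, ∑ a ∈ L q, disc x q a =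
          ∑ q ∈ Icc 1 D, ∑ a ∈ (if q = 0 then ∅ else (L q).image (fun a : (ZMod q)ˣ => (a : ZMod q).val)),
            |H343E.piAP x q a - H343E.pi1 x / (Nat.totient q : ℝ)| := by
        apply sum_congr rfl
        intro q hq
        rw [mem_Icc] at hq
        have hNe : NeZero q := ⟨by omega⟩
        rw [if_neg (by omega), sum_image]
        · exact sum_congr rfl fun a _ => disc_eq x q a
        · intro a _ b _ hab
          exact Units.ext (ZMod.val_injective q hab)
      rw [e]
      refine h.trans ?_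
      have : 0 ≤ A * x / Real.log x ^ U := by positivity
      calc A * x / Real.log x ^ U = 1 * (A * x / Real.log x ^ U) := (one_mul _).symm
        _ ≤ C * (A * x / Real.log x ^ U) := mul_le_mul_of_nonneg_right hC1 this

end Pool.Agent.Results.MP_a78e8f_nt.ExceptionalClasses
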