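import Pool.Agent.H442R2.KF.AsmB

/-!
The Elliott-Halberstam bound with absolute values at every level `θ < 14/27`, for all but
`C (log x)^(2U+8)` residues `a ≤ x`.
-/

set_option autoImplicit false

namespace Pool.Agent.Results.MP_a78e8f_nt.FewExceptionalResidues

open Finset

/-- the number of primes `p ≤ x` -/
noncomputable def primePi (x : ℕ) : ℕ := ((Icc 1 x).filter (fun p : ℕ => p.Prime)).card

/-- the number of primes `p ≤ x` with `p ≡ a (mod q)` -/
noncomputable def primePiAP (x q a : ℕ) : ℕ :=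
  ((Icc 1 x).filter (fun p : ℕ => p.Prime ∧ p ≡ a [MOD q])).card

/-- `∑ |π(x; q, a) - π(x)/φ(q)|` over all `q ≤ x^θ` coprime to `a` -/
noncomputable def S (θ : ℝ) (x a : ℕ) : ℝ :=
  ∑ q ∈ (Icc 1 ⌊(x : ℝ) ^ θ⌋₊).filter (fun q => Nat.Coprime a q),
    |(primePiAP x q a : ℝ) - (primePi x : ℝ) / (Nat.totient q : ℝ)|

/-- **Elliott-Halberstam beyond `1/2` for all but few residues.** For all `θ < 14/27` and `U > 0`
there is `C` such that for every integer `x > 2`, all but at most `C (log x)^(2U+8)` residues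
`a ∈ [1, x]` satisfy `∑_{q ≤ x^θ, (q,a)=1} |π(x; q, a) - π(x)/φ(q)| ≤ x / (log x)^U`. -/
theorem result : ∀ θ : ℝ, θ < 14 / 27 → ∀ U : ℝ, 0 < U → ∃ C : ℝ, ∀ x : ℕ, 2 < x →
    (((Icc 1 x).filter (fun a : ℕ => ¬ S θ x a ≤ (x : ℝ) / Real.log x ^ U)).card : ℝ) ≤
      C * Real.log x ^ (2 * U + 8) := by
  intro θ hθ U hU
  obtain ⟨C, _, hC⟩ := Pool.Agent.H442R2.KF.final2 θ hθ U hU
  refine ⟨C, fun x hx => ?_⟩
  simp only [not_le]
  exact hC x hx

end Pool.Agent.Results.MP_a78e8f_nt.FewExceptionalResidues
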