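import Mathlib
import Pool.Agent.H262R4.FR.AllM

/-!
The Moebius function in a fixed residue class, to almost all moduli up to `x ^ θ`, `θ < 14 / 27`.
-/

namespace Pool.Agent.Results.MP_a78e8f_nt.MoebiusBeyondHalf
open Finset

theorem result (a : ℤ) (ha : a ≠ 0) (θ : ℝ) (hθ : θ < 14 / 27) (ε : ℝ) (hε : 0 < ε) :
    ∃ x0 : ℕ, ∀ x : ℕ, x0 ≤ x → ∀ D : ℕ, 1 ≤ D → (D : ℝ) ≤ (x : ℝ) ^ θ →
      ∑ d ∈ (Ioc D (2 * D)).filter (fun d : ℕ => IsCoprime a (d : ℤ)),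
        |∑ n ∈ (Icc 1 x).filter (fun n : ℕ => (n : ℤ) ≡ a [ZMOD d]),
          (ArithmeticFunction.moebius n : ℝ)| ≤ ε * x := by
  obtain ⟨x0, h⟩ := Pool.Agent.H262R4.FR.f_MT a ha θ hθ ε hε
  refine ⟨x0, fun x hx D hD hDx => ?_⟩
  have h1 := h x hx D hD hDx
  have e1 : (Ioc D (2 * D)).filter (fun d : ℕ => IsCoprime a (d : ℤ)) =
      (Ioc D (2 * D)).filter (fun d : ℕ => Int.gcd a d = 1) :=
    Finset.filter_congr fun d _ => Int.isCoprime_iff_gcd_eq_one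
  have e2 : ∀ d : ℕ, (Icc 1 x).filter (fun n : ℕ => (n : ℤ) ≡ a [ZMOD d]) =
      (Icc 1 x).filter (fun n : ℕ => (d : ℤ) ∣ (n : ℤ) - a) := fun d =>
    Finset.filter_congr fun n _ => by
      rw [Int.modEq_comm, Int.modEq_iff_dvd]
  rw [e1]
  simp only [e2]
  exact h1

end Pool.Agent.Results.MP_a78e8f_nt.MoebiusBeyondHalf
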