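import Mathlib
import Pool.Agent.H262R4.FR.AllU

/-!
The convolution of an arbitrary divisor-bounded sequence with the primes of a tiny range has level of
distribution `14 / 27` in a fixed residue class.
-/

namespace Pool.Agent.Results.MP_a78e8f_nt.UnbalancedConvolution
open Finset

theorem result (θ : ℝ) (hθ0 : 0 < θ) (hθ : θ < 14 / 27) : ∃ ρ : ℝ, 0 < ρ ∧
    ∀ a : ℤ, a ≠ 0 → ∀ ρ0 : ℝ, 0 < ρ0 → ∀ A B : ℕ, ∃ C : ℝ, 0 < C ∧
    ∀ (x P P' : ℕ) (α : ℕ → ℂ), 3 ≤ x → (x : ℝ) ^ ρ0 ≤ P → (P' : ℝ) ≤ (x : ℝ) ^ ρ →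
      (∀ m, ‖α m‖ ≤ (m.divisors.card : ℝ) ^ B) →
      ∑ d ∈ (Icc 1 ⌊(x : ℝ) ^ θ⌋₊).filter (fun d : ℕ => IsCoprime a (d : ℤ)),
        ‖∑ p ∈ (Ioc P P').filter Nat.Prime, ∑ m ∈ Icc 1 (x / p),
            (if ((m * p : ℕ) : ℤ) ≡ a [ZMOD d] then α m else 0) -
          1 / (Nat.totient d : ℂ) * ∑ p ∈ (Ioc P P').filter Nat.Prime, ∑ m ∈ Icc 1 (x / p),
            (if Nat.Coprime (m * p) d then α m else 0)‖ ≤ C * x / Real.log x ^ A := by
  obtain ⟨ρ, hρ, h⟩ := Pool.Agent.H262R4.FR.f_UC2 θ hθ0 hθ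
  refine ⟨ρ, hρ, fun a ha ρ0 hρ0 A B => ?_⟩
  obtain ⟨C, hC, h⟩ := h a ha ρ0 hρ0 A B
  refine ⟨C, hC, fun x P P' α hx hP hP' hα => ?_⟩
  refine le_trans (le_of_eq ?_) (h x P P' α hx hP hP' hα)
  refine Finset.sum_congr (Finset.filter_congr fun d _ => Int.isCoprime_iff_gcd_eq_one) fun d _ => ?_
  congr 1
  rw [Finset.mul_sum, ← Finset.sum_sub_distrib]
  refine Finset.sum_congr rfl fun p _ => ?_
  rw [Finset.mul_sum, ← Finset.sum_sub_distrib]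
  refine Finset.sum_congr rfl fun m _ => ?_
  have e1 : (((m * p : ℕ) : ℤ) ≡ a [ZMOD d]) ↔ (d : ℤ) ∣ (m : ℤ) * p - a := by
    rw [Int.modEq_comm, Int.modEq_iff_dvd]
    push_cast
    exact Iff.rfl
  unfold Pool.Agent.H262R4.FR.Ii
  by_cases h1 : (d : ℤ) ∣ (m : ℤ) * p - a
  · by_cases h2 : Nat.Coprime (m * p) d
    · rw [if_pos (e1.2 h1), if_pos h1, if_pos h2, if_pos h2]
      push_cast
      ring
    · rw [if_pos (e1.2 h1), if_pos h1, if_neg h2, if_neg h2]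
      push_cast
      ring
  · have h1' := fun hh => h1 (e1.1 hh)
    by_cases h2 : Nat.Coprime (m * p) d
    · rw [if_neg h1', if_neg h1, if_pos h2, if_pos h2]
      push_cast
      ring
    · rw [if_neg h1', if_neg h1, if_neg h2, if_neg h2]
      push_cast
      ring

end Pool.Agent.Results.MP_a78e8f_nt.UnbalancedConvolution
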